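import Pool.Agent.VLF.Stmts

/-!
# Squad VLF, row LFT: lifting of a function of degree at most `d` on finite sets
-/

set_option autoImplicit false

namespace Pool.Agent.VLF.H44

open Pool.Agent.ZOL Finset

/-- the alternating sum over the subsets -/
private def mb {M : Type} [AddCommGroup M] (h : Finset ℕ → M) (A : Finset ℕ) : M :=
  ∑ B ∈ A.powerset, (-1 : ℤ) ^ B.card • h B

private theorem mb_insert {M : Type} [AddCommGroup M] (h : Finset ℕ → M) {a : ℕ} {S : Finset ℕ}
    (ha : a ∉ S) : mb h (insert a S) = mb h S - mb (fun B => h (insert a B)) S := by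
  unfold mb
  rw [sum_powerset_insert ha, sub_eq_add_neg, ← sum_neg_distrib]
  congr 1
  refine sum_congr rfl fun B hB => ?_
  have hB' : a ∉ B := fun h => ha (mem_powerset.1 hB h)
  rw [card_insert_of_notMem hB', pow_succ, mul_neg, mul_one, neg_smul]

private theorem mb_sub {M : Type} [AddCommGroup M] (f g : Finset ℕ → M) (S : Finset ℕ) :
    mb (fun B => f B - g B) S = mb f S - mb g S := by
  unfold mb
  rw [← sum_sub_distrib]
  exact sum_congr rfl fun B _ => smul_sub _ _ _

private theorem mb_congr {M : Type} [AddCommGroup M] {f g : Finset ℕ → M} {S : Finset ℕ}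
    (h : ∀ B ⊆ S, f B = g B) : mb f S = mb g S :=
  sum_congr rfl fun B hB => by rw [h B (mem_powerset.1 hB)]

private theorem mb_mb {M : Type} [AddCommGroup M] (S : Finset ℕ) :
    ∀ h : Finset ℕ → M, mb (mb h) S = h S := by
  induction S using Finset.induction_on with
  | empty => intro h; simp [mb]
  | insert a S ha ih =>
    intro h
    rw [mb_insert _ ha]
    have h1 : mb (fun B => mb h (insert a B)) S =
        mb (fun B => mb h B - mb (fun C => h (insert a C)) B) S :=
      mb_congr fun B hB => mb_insert h fun h2 => ha (hB h2)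
    rw [h1, mb_sub, ih, ih]
    abel

theorem lft : LftStmt := by
  intro q d g hq hg
  have : NeZero q := ⟨hq.ne'⟩
  obtain ⟨c, hc⟩ : ∃ c : Finset ℕ → ZMod q, ∀ A, c A = (-1 : ℤ) ^ A.card • mb g A :=
    ⟨_, fun _ => rfl⟩
  have hc0 : ∀ A : Finset ℕ, d < A.card → c A = 0 := by
    intro A hA
    rw [hc A]
    have h1 : mb g A = 0 := hg A hA
    rw [h1, smul_zero]
  refine ⟨fun S => ∑ A ∈ S.powerset, (c A).val, ?_, ?_⟩
  · intro A hA
    have h1 : ∀ B : Finset ℕ, ((∑ A ∈ B.powerset, (c A).val : ℕ) : ℤ) =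
        mb (fun C => (-1 : ℤ) ^ C.card * ((c C).val : ℤ)) B := by
      intro B
      unfold mb
      push_cast
      refine sum_congr rfl fun C _ => ?_
      rw [smul_eq_mul, ← mul_assoc, ← mul_pow]
      norm_num
    have h2 : ∑ B ∈ A.powerset, (-1 : ℤ) ^ B.card * ((∑ A ∈ B.powerset, (c A).val : ℕ) : ℤ) =
        mb (mb (fun C => (-1 : ℤ) ^ C.card * ((c C).val : ℤ))) A := by
      refine sum_congr rfl fun B _ => ?_
      rw [h1 B, smul_eq_mul]
    rw [h2, mb_mb, hc0 A hA, ZMod.val_zero]
    simp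
  · intro S
    push_cast
    have h1 : ∑ A ∈ S.powerset, (((c A).val : ℕ) : ZMod q) = mb (mb g) S := by
      refine sum_congr rfl fun A _ => ?_
      rw [ZMod.natCast_zmod_val, hc A]
    rw [h1, mb_mb]

end Pool.Agent.VLF.H44
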